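import Pool.Agent.KS6_22.LD.C

set_option autoImplicit false

namespace Pool.Agent.Results.MP_0f6975_co.ShortArcs

open Pool.Agent.KS6_22.LD

/-- Twice the signed area of the triangle `x y z`: positive if it is traversed counterclockwise. -/
def orient (x y z : EuclideanSpace ℝ (Fin 2)) : ℝ :=
  (y 0 - x 0) * (z 1 - x 1) - (y 1 - x 1) * (z 0 - x 0)

/-- The number of distinct distances between two of the points which are at least `t`. -/
noncomputable def largeDistances {n : ℕ} (p : Fin n → EuclideanSpace ℝ (Fin 2)) (t : ℝ) : ℕ := by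
  classical exact ((Finset.univ.filter (fun q : Fin n × Fin n =>
    q.1 ≠ q.2 ∧ t ≤ dist (p q.1) (p q.2))).image (fun q : Fin n × Fin n => dist (p q.1) (p q.2))).card

theorem greedyM {L : ℕ → ℕ → Prop} (N : ℕ) : ∀ s i, ¬ St L s i N → ∃ col : ℕ → ℕ, Monotone col ∧
    (∀ r, col r < s) ∧ ∀ r r', i ≤ r → r < r' → r' ≤ N → L r r' → col r ≠ col r'
  | 0, i, h => (h (St.zero _ _)).elim
  | s + 1, i, h => by
    classical
    by_cases hex : ∃ b, ∃ a, i ≤ a ∧ a < b ∧ b ≤ N ∧ L a b
    · obtain ⟨a, h1, h2, h3, h4⟩ := Nat.find_spec hex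
      obtain ⟨col, hc0, hc1, hc2⟩ := greedyM N s (Nat.find hex)
        (fun hh => h (St.cons a _ h1 h2 h3 h4 hh))
      refine ⟨fun r => if r < Nat.find hex then 0 else col r + 1, fun r r' hr => ?_, fun r => ?_, ?_⟩
      · have := hc0 hr
        beta_reduce
        split_ifs <;> omega
      · have := hc1 r
        beta_reduce
        split_ifs <;> omega
      · intro r r' g1 g2 g3 g4
        have g5 : ¬ r' < Nat.find hex := fun hh => Nat.find_min hex hh ⟨r, g1, g2, g3, g4⟩
        simp only [g5, if_false]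
        split_ifs with g6
        · exact (Nat.succ_ne_zero _).symm
        · have := hc2 r r' (by omega) g2 g3 g4
          omega
    · exact ⟨fun _ => 0, monotone_const, fun _ => Nat.succ_pos _, fun r r' g1 g2 g3 g4 =>
        (hex ⟨r', r, g1, g2, g3, g4⟩).elim⟩

theorem arcs (n : ℕ) (p : Fin n → EuclideanSpace ℝ (Fin 2))
    (h : ∀ i : Fin n, p i ∉ convexHull ℝ (p '' {j : Fin n | j ≠ i})) (P Q : Fin n)
    (hmax : ∀ a b, dist (p a) (p b) ≤ dist (p P) (p Q)) (t : ℝ) :
    ∃ σ : Fin n ≃ Fin n, (∀ a : Fin n, (a : ℕ) = 0 → σ a = P) ∧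
      (∀ a b c, a < b → b < c → 0 < orient (p (σ a)) (p (σ b)) (p (σ c))) ∧
      ∃ col : Fin n → Fin (2 * largeDistances p t + 1), Monotone col ∧
        ∀ a b, a < b → col a = col b → dist (p (σ a)) (p (σ b)) < t := by
  classical
  have pinj : ∀ a b, a ≠ b → 0 < dist (p a) (p b) := by
    intro a b hab
    rw [dist_pos]
    intro e
    exact h a (subset_convexHull _ _ ⟨b, hab.symm, e.symm⟩)
  rcases eq_or_ne P Q with rfl | hPQ
  · have hs : ∀ a b : Fin n, a = b := by
      intro a b
      by_contra hab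
      have := (pinj a b hab).trans_le (hmax a b)
      simp at this
    exact ⟨Equiv.refl _, fun a _ => hs _ _, fun a b c hab _ => absurd (hs a b) hab.ne,
      fun _ => ⟨0, by omega⟩, monotone_const, fun a b hab _ => absurd (hs a b) hab.ne⟩
  have hD : 0 < dist (p P) (p Q) := pinj P Q hPQ
  obtain ⟨v, v0, vn, vs, vi, vo⟩ := sorted' (hull_of h) P Q hPQ (fun z => by
    have := pow_le_pow_left₀ dist_nonneg (hmax z Q) 2
    rw [dist_comm (p P), EuclideanSpace.dist_eq, EuclideanSpace.dist_eq,
      Real.sq_sqrt (by positivity), Real.sq_sqrt (by positivity), Fin.sum_univ_two,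
      Fin.sum_univ_two] at this
    simpa only [Real.dist_eq, sq_abs] using this)
  obtain ⟨m, rfl⟩ : ∃ m, n = m + 1 := ⟨n - 1, by have := Fin.pos P; omega⟩
  have vne : ∀ a b, a < b → b ≤ m + 1 → (0 < a ∨ b ≤ m) → v a ≠ v b := by
    intro a b h1 h2 h3
    rcases h2.eq_or_lt with rfl | h2
    · rw [vn, ← v0]; exact (vi 0 a (by omega) h1).symm
    · exact vi a b h1 h2
  -- the numbering
  have bij : Function.Bijective fun a : Fin (m + 1) => v a := by
    refine ⟨fun a b hab => ?_, fun a => ?_⟩
    · rcases lt_trichotomy a b with hl | hl | hl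
      · exact absurd hab (vi a b hl b.2)
      · exact hl
      · exact absurd hab.symm (vi b a hl a.2)
    · obtain ⟨r, r1, r2⟩ := vs a
      exact ⟨⟨r, r1⟩, r2⟩
  refine ⟨Equiv.ofBijective _ bij, fun a ha => ?_, fun a b c hab hbc => ?_, ?_⟩
  · show v a = P
    rw [ha, v0]
  · have := vo a b c hab hbc c.2.le (Or.inr c.2)
    exact this
  rcases lt_or_ge (dist (p P) (p Q)) t with htD | htD
  · exact ⟨fun _ => ⟨0, by omega⟩, monotone_const, fun a b _ _ => (hmax _ _).trans_lt htD⟩
  set S : Finset ℝ := (Finset.univ.filter (fun q : Fin (m + 1) × Fin (m + 1) =>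
    q.1 ≠ q.2 ∧ t ≤ dist (p q.1) (p q.2))).image (fun q => dist (p q.1) (p q.2)) with hSdef
  have hcard : largeDistances p t = S.card := by
    unfold largeDistances
    convert rfl
  have hS : ∀ a b, a ≠ b → t ≤ dist (p a) (p b) → dist (p a) (p b) ∈ S := fun a b hab hl =>
    Finset.mem_image.2 ⟨(a, b), Finset.mem_filter.2 ⟨Finset.mem_univ _, hab, hl⟩, rfl⟩
  obtain ⟨q, q1, q2⟩ := vs Q
  have q0 : 0 < q := by
    rcases Nat.eq_zero_or_pos q with rfl | h0
    · exact (hPQ (v0.symm.trans q2)).elim
    · exact h0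
  set d := ds (fun r => p (v r) 0) (fun r => p (v r) 1) with hd
  have dd : ∀ a b, d a b = dist (p (v a)) (p (v b)) := dist_ds p v
  have key := core (d := d) (n := m) (t := t) (D := dist (p P) (p Q)) (S := S)
    htD (fun a => by rw [dd, dd, vn, v0, dist_comm]) (by rw [dd, dist_self]; exact hD)
    (fun a b _ _ => by rw [dd]; exact hmax _ _)
    (fun a b h1 h2 h3 h4 => by rw [dd] at h4 ⊢; exact hS _ _ (vne a b h1 h2 h3) h4)
    (fun k k0 km hk => by
      have hk' : d k (m + 1) = dist (p P) (p Q) := by rw [← hk, dd, dd, vn, v0, dist_comm]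
      constructor
      · exact cd_of (by rw [← hd, hk]; exact hD)
          (fun a b c _ h2 h3 h4 => vo a b c h2 h3 (by omega) (by omega))
          (fun a b _ h2 h3 => by
            rw [← hd, dd]; exact pinj _ _ (vne a b h2 (by omega) (by omega)))
          (fun a b _ _ _ => by rw [← hd, hk, dd]; exact hmax _ _)
      · exact cd_of (by rw [← hd, hk']; exact hD)
          (fun a b c h1 h2 h3 h4 => vo a b c h2 h3 (by omega) (by omega))
          (fun a b h1 h2 h3 => by
            rw [← hd, dd]; exact pinj _ _ (vne a b h2 (by omega) (by omega)))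
          (fun a b _ _ _ => by rw [← hd, hk', dd]; exact hmax _ _))
    q q0 (by omega) (by rw [dd, v0, q2])
  obtain ⟨col, c0, c1, c2⟩ := greedyM m _ 0 key
  refine ⟨fun a => ⟨col a, by rw [hcard]; exact c1 _⟩, fun a b hab => c0 hab, fun a b hab he => ?_⟩
  by_contra hc
  have hl : t ≤ d a b := by rw [dd]; exact not_lt.1 hc
  exact c2 a b (Nat.zero_le _) hab (by have := b.2; omega) hl (congrArg Fin.val he)

/-- **Main theorem.** Let `p` be points in strictly convex position in the plane, let `P Q` be a longest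
segment between two of them, and let `t` be a real number. Number the points counterclockwise, starting
with `P`. If `k` distinct distances between the points are at least `t`, then the sequence of the points
can be cut into `2 k + 1` blocks of consecutive points (some of them may be empty) such that any two points
of a block have a distance less than `t`. In particular the graph of the distances which are at least `t`
has a proper colouring with `2 k + 1` colours. -/
theorem result (n : ℕ) (p : Fin n → EuclideanSpace ℝ (Fin 2))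
    (h : ∀ i : Fin n, p i ∉ convexHull ℝ (p '' {j : Fin n | j ≠ i})) (t : ℝ) :
    (∀ P Q : Fin n, (∀ a b, dist (p a) (p b) ≤ dist (p P) (p Q)) →
      ∃ σ : Fin n ≃ Fin n, (∀ a : Fin n, (a : ℕ) = 0 → σ a = P) ∧
        (∀ a b c, a < b → b < c → 0 < orient (p (σ a)) (p (σ b)) (p (σ c))) ∧
        ∃ col : Fin n → Fin (2 * largeDistances p t + 1), Monotone col ∧
          ∀ a b, a < b → col a = col b → dist (p (σ a)) (p (σ b)) < t) ∧
    (SimpleGraph.fromRel (fun a b : Fin n => t ≤ dist (p a) (p b))).Colorable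
      (2 * largeDistances p t + 1) := by
  refine ⟨fun P Q hmax => arcs n p h P Q hmax t, ?_⟩
  rcases isEmpty_or_nonempty (Fin n) with hn | hn
  · exact ⟨SimpleGraph.Coloring.mk (fun a => (hn.false a).elim) fun {a} => (hn.false a).elim⟩
  obtain ⟨i⟩ := hn
  obtain ⟨⟨P, Q⟩, -, hmax⟩ := Finset.exists_max_image Finset.univ
    (fun q : Fin n × Fin n => dist (p q.1) (p q.2)) ⟨(i, i), Finset.mem_univ _⟩
  obtain ⟨σ, -, -, col, -, hcol⟩ := arcs n p h P Q (fun a b => hmax (a, b) (Finset.mem_univ _)) t
  refine ⟨SimpleGraph.Coloring.mk (fun a => col (σ.symm a)) ?_⟩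
  intro a b hab he
  rw [SimpleGraph.fromRel_adj] at hab
  have hl : t ≤ dist (p a) (p b) := by
    rcases hab.2 with h1 | h1
    · exact h1
    · rwa [dist_comm (p a)]
  have hne : σ.symm a ≠ σ.symm b := fun e => hab.1 (σ.symm.injective e)
  rcases lt_or_gt_of_ne hne with h1 | h1
  · have := hcol _ _ h1 he
    rw [σ.apply_symm_apply, σ.apply_symm_apply] at this
    linarith
  · have := hcol _ _ h1 he.symm
    rw [σ.apply_symm_apply, σ.apply_symm_apply, dist_comm] at this
    linarith

end Pool.Agent.Results.MP_0f6975_co.ShortArcs
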